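import Pool.Agent.L7h95.CD.Stm2

/-! # Project CD, second stage: the polynomial code and the snake -/

set_option autoImplicit false

namespace Pool.Agent.L7h60.CD

open Finset Function
open Pool.Agent.L7h95.CD

theorem s_CO2 : S_CO2 := by
  intro p r w l hr hw hp
  have : Fact r.Prime := ⟨hr⟩
  have : NeZero r := ⟨hr.ne_zero⟩
  have hcard : Fintype.card (Fin p) ≤ Fintype.card (Fin (l + 1) → ZMod r) := by
    rw [Fintype.card_fun, ZMod.card, Fintype.card_fin, Fintype.card_fin]
    exact hp
  obtain ⟨a⟩ := Function.Embedding.nonempty_of_card_le hcard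
  let P : Fin p → Polynomial (ZMod r) := fun j =>
    ∑ i : Fin (l + 1), Polynomial.C (a j i) * Polynomial.X ^ (i : ℕ)
  have hcoeff : ∀ (j : Fin p) (k : Fin (l + 1)), (P j).coeff k = a j k := by
    intro j k
    simp only [P, Polynomial.finsetSum_coeff, Polynomial.coeff_C_mul, Polynomial.coeff_X_pow]
    rw [Finset.sum_eq_single k]
    · simp
    · intro i _ hi
      have : ¬ (k : ℕ) = (i : ℕ) := fun h => hi (Fin.ext h).symm
      simp [this]
    · intro h
      exact absurd (mem_univ _) h
  have hdeg : ∀ j : Fin p, (P j).natDegree ≤ l := by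
    intro j
    refine Polynomial.natDegree_sum_le_of_forall_le _ _ fun i _ => ?_
    exact (Polynomial.natDegree_C_mul_X_pow_le _ _).trans (by omega)
  let e : ZMod r ≃ Fin r := Fintype.equivFinOfCardEq (ZMod.card r)
  refine ⟨fun j g => e ((P j).eval ((g.1 : ℕ) : ZMod r)), ?_⟩
  intro i j hij
  have hne : P i - P j ≠ 0 := by
    intro h
    apply hij
    apply a.injective
    funext k
    have h1 : P i = P j := sub_eq_zero.1 h
    rw [← hcoeff i k, ← hcoeff j k, h1]
  have hd : (P i - P j).natDegree ≤ l :=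
    (Polynomial.natDegree_sub_le _ _).trans (max_le (hdeg i) (hdeg j))
  have hsub : ((univ.filter fun g : Fin w =>
      e ((P i).eval ((g.1 : ℕ) : ZMod r)) = e ((P j).eval ((g.1 : ℕ) : ZMod r))).image
      (fun g : Fin w => ((g.1 : ℕ) : ZMod r))) ⊆ (P i - P j).roots.toFinset := by
    intro x hx
    rw [Finset.mem_image] at hx
    obtain ⟨g, hg, rfl⟩ := hx
    rw [Finset.mem_filter] at hg
    rw [Multiset.mem_toFinset, Polynomial.mem_roots hne, Polynomial.IsRoot, Polynomial.eval_sub,
      e.injective hg.2, sub_self]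
  have hinj : Function.Injective (fun g : Fin w => ((g.1 : ℕ) : ZMod r)) := by
    intro g g' h
    have h1 := (ZMod.natCast_eq_natCast_iff' _ _ _).1 h
    rw [Nat.mod_eq_of_lt (by omega), Nat.mod_eq_of_lt (by omega)] at h1
    exact Fin.ext h1
  have h2 := Finset.card_le_card hsub
  rw [Finset.card_image_of_injective _ hinj] at h2
  exact h2.trans ((Multiset.toFinset_card_le _).trans ((Polynomial.card_roots' _).trans hd))

/-- Extension by zero preserves the Hamming distance. -/
lemma hammingDist_extend {ι κ : Type} [Fintype ι] [Fintype κ] [DecidableEq κ] (e : ι ↪ κ)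
    (y z : ι → ZMod 2) :
    hammingDist (extend e y 0) (extend e z 0) = hammingDist y z := by
  unfold hammingDist
  rw [← card_map e]
  congr 1
  ext i
  simp only [mem_filter, mem_univ, true_and, mem_map]
  constructor
  · intro h
    by_cases hi : ∃ a, e a = i
    · obtain ⟨a, rfl⟩ := hi
      rw [e.injective.extend_apply, e.injective.extend_apply] at h
      exact ⟨a, h, rfl⟩
    · rw [extend_apply' _ _ _ hi, extend_apply' _ _ _ hi] at h
      exact absurd rfl h
  · rintro ⟨a, ha, rfl⟩
    rw [e.injective.extend_apply, e.injective.extend_apply]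
    exact ha

lemma dm (W x q r : ℕ) (hr : r < W) (h : x = W * q + r) : x / W = q ∧ x % W = r := by
  subst h
  constructor
  · rw [Nat.mul_add_div (by omega), Nat.div_eq_of_lt hr, add_zero]
  · rw [Nat.mul_add_mod, Nat.mod_eq_of_lt hr]

/-- Part SN2. -/
theorem s_SN2 (hCO2 : S_CO2) (hGRA : S_GRA) (hDJ1 : S_DJ1) (hDJ2 : S_DJ2) (hDJ3 : S_DJ3) :
    S_SN2 := by
  intro p r l n k hr hl hlr hpr hn hk
  rcases Nat.eq_zero_or_pos p with hp | hp
  · subst hp
    rw [pow_zero] at hk
    exact ⟨fun _ => 0, ⟨fun i hi => by omega, fun i j hij hj => by omega⟩⟩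
  · obtain ⟨φ, hφ⟩ := hCO2 p r (3 * l + 1) l hr hlr hpr
    obtain ⟨c, γ, hG⟩ := hGRA p hp
    have hcard : Fintype.card (Fin p ⊕ (Fin (3 * l + 1) × Fin r)) ≤ Fintype.card (Fin n) := by
      simp only [Fintype.card_sum, Fintype.card_prod, Fintype.card_fin]
      exact hn
    obtain ⟨e⟩ := Function.Embedding.nonempty_of_card_le hcard
    obtain ⟨w, hw⟩ : ∃ w, w = 3 * l + 1 := ⟨_, rfl⟩
    rw [show 3 * l + 2 = w + 1 by omega] at hk
    rw [← hw] at hk
    have hwl : 3 * l + 1 ≤ w := hw.symm.le
    subst hw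
    generalize hw : 3 * l + 1 = w at *
    have key : ∀ i, ∃ q s, s ≤ w ∧ i + w = (w + 1) * q + s ∧ (i + w) / (w + 1) = q ∧
        (i + w) % (w + 1) = s := fun i =>
      ⟨(i + w) / (w + 1), (i + w) % (w + 1), Nat.lt_succ_iff.1 (Nat.mod_lt _ (by omega)),
        (Nat.div_add_mod _ _).symm, rfl, rfl⟩
    have hv0 : ∀ i q s, i + w = (w + 1) * q + s → s ≤ w → q = 0 → s = w := by
      intro i q s h1 h2 h3
      subst h3
      rw [mul_zero] at h1
      omega
    have hlt : ∀ i q s, i < k → i + w = (w + 1) * q + s → q < 2 ^ p := by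
      intro i q s h1 h2
      by_contra h3
      push Not at h3
      have h4 : (w + 1) * 2 ^ p ≤ (w + 1) * q := Nat.mul_le_mul_left _ h3
      omega
    refine ⟨fun i => extend e (yw φ c γ ((i + w) / (w + 1)) ((i + w) % (w + 1))) 0,
      ⟨fun i hi => ?_, fun i j hij hj => ?_⟩⟩
    · change hammingDist (extend e _ 0) (extend e _ 0) = 1
      rw [hammingDist_extend]
      obtain ⟨q, s, hs, h0, hq1, hs1⟩ := key i
      rw [hq1, hs1]
      rcases Nat.lt_or_ge s w with h | h
      · obtain ⟨h1, h2⟩ := dm (w + 1) (i + 1 + w) q (s + 1) (by omega) (by omega)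
        rw [h1, h2, hDJ1 p r w φ c γ _ _ _ (by omega) (by omega)]
        omega
      · have hsw : s = w := le_antisymm hs h
        have h3 : i + 1 + w = (w + 1) * (q + 1) + 0 := by
          rw [Nat.mul_add]; omega
        obtain ⟨h1, h2⟩ := dm (w + 1) (i + 1 + w) (q + 1) 0 (by omega) h3
        rw [h1, h2, hsw]
        rcases hDJ2 p r w l φ c γ hl hw.le hφ hG q w 0 le_rfl (by omega) (fun _ => rfl)
          (hlt (i + 1) (q + 1) 0 hi h3) with h4 | h4
        · rw [h4]
          omega
        · omega
    · change min 3 (j - i) ≤ hammingDist (extend e _ 0) (extend e _ 0)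
      rw [hammingDist_extend]
      obtain ⟨q, s, hs, h0, hq1, hs1⟩ := key i
      obtain ⟨q', s', hs', h0', hq1', hs1'⟩ := key j
      rw [hq1, hs1, hq1', hs1']
      have hv : q ≤ q' := by
        rw [← hq1, ← hq1']
        exact Nat.div_le_div_right (by omega)
      have hq' : q' < 2 ^ p := hlt j q' s' hj h0'
      rcases Nat.lt_or_ge (q + 1) q' with h | h
      · exact (min_le_left _ _).trans (hDJ3 p r w l φ c γ hl hw.le hφ hG _ _ _ _ hs hs'
          (hv0 i q s h0 hs) h hq')
      · rcases Nat.lt_or_ge q q' with h' | h'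
        · have h1 : q' = q + 1 := by omega
          subst h1
          rcases hDJ2 p r w l φ c γ hl hw.le hφ hG q s s' hs hs' (hv0 i q s h0 hs) hq' with h4 | h4
          · rw [h4]
            refine (min_le_right _ _).trans ?_
            rw [Nat.mul_add] at h0'
            omega
          · exact (min_le_left _ _).trans (by omega)
        · have h1 : q' = q := by omega
          subst h1
          rw [hDJ1 p r w φ c γ _ _ _ (by omega) hs']
          refine (min_le_right _ _).trans ?_
          omega

end Pool.Agent.L7h60.CD
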